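import Mathlib
import Pool.Agent.H31.TabTree

set_option autoImplicit false
open Pool.Agent.H31 Pool.Agent.H31.TabDefs

namespace Pool.Agent.Results.MP_c76eb3_co.Rigid

theorem result (f : tree (fun c : ℕ × ℕ => c.1 ≤ c.2) ≃g tree (fun c : ℕ × ℕ => c.1 ≤ c.2))
    (T : {l // Std (fun c : ℕ × ℕ => c.1 ≤ c.2) l}) : f T = T :=
  TabTree.rigid ⟨Nat.le_refl 0, fun _ _ _ h a => Nat.le_trans h a, fun _ _ _ h a => Nat.le_trans a h,
    fun X => ((Set.finite_Iic X).prod (Set.finite_Iic X)).subset fun _ h =>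
      ⟨Nat.le_trans h.1 h.2, h.2⟩⟩ f T

end Pool.Agent.Results.MP_c76eb3_co.Rigid
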